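import Pool.Agent.Helper6.NX.GoalsB2

/-! Packet NX-CMP1 (MP_75608d_al): three random conjugates, probability of one closed subtree. -/

set_option linter.unusedVariables false

namespace Pool.Agent.Helper26.NX

open Equiv Pool.Agent.Helper6.NX Pool.Agent.Helper15.An

lemma lab_inj (s : List Bool) (b b' : Bool) (h : lab (b :: s) = lab (b' :: s)) : b = b' := by
  simp only [lab] at h
  generalize lab s = l at h
  revert l b b'
  decide

lemma lab_ne (s : List Bool) (b : Bool) : lab (b :: s) ≠ lab s := by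
  simp only [lab]
  generalize lab s = l
  revert l b
  decide

/-- alive edges -/
def alive (T : Finset (List Bool)) (e : {s // s ∈ T} × Bool) : Prop := e.2 :: e.1.1 ∈ T

instance (T : Finset (List Bool)) : DecidablePred (alive T) := fun e =>
  inferInstanceAs (Decidable (e.2 :: e.1.1 ∈ T))

/-- allowed targets -/
def tgt (T : Finset (List Bool)) (e : {s // s ∈ T} × Bool) : Finset {s // s ∈ T} :=
  if h : alive T e then {⟨e.2 :: e.1.1, h⟩} else Finset.univ

/-- edge weight -/
noncomputable def wt (T : Finset (List Bool)) (n : ℕ) (ρ : ℝ) (e : {s // s ∈ T} × Bool)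
    (t : {s // s ∈ T}) : ℝ :=
  if alive T e then 1 / (n : ℝ) else if e.1 = t then ρ else 1 / √(n : ℝ)

lemma card_alive (T : Finset (List Bool)) (hT : TC T) :
    (Finset.univ.filter (alive T)).card + 1 = T.card := by
  classical
  have h1 : (Finset.univ.filter (alive T)).card = (T.erase []).card := by
    refine Finset.card_bij (fun e _ => e.2 :: e.1.1) ?_ ?_ ?_
    · intro e he
      rw [Finset.mem_filter] at he
      rw [Finset.mem_erase]
      exact ⟨by simp, he.2⟩
    · intro e he e' he' h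
      simp only [List.cons.injEq] at h
      obtain ⟨⟨s, hs⟩, b⟩ := e
      obtain ⟨⟨s', hs'⟩, b'⟩ := e'
      simp only at h
      obtain ⟨rfl, rfl⟩ := h
      rfl
    · intro s hs
      rw [Finset.mem_erase] at hs
      cases s with
      | nil => exact absurd rfl hs.1
      | cons b s =>
        refine ⟨(⟨s, hT.2 b s hs.2⟩, b), ?_, rfl⟩
        rw [Finset.mem_filter]
        exact ⟨Finset.mem_univ _, hs.2⟩
  rw [h1, Finset.card_erase_of_mem hT.1]
  have : 0 < T.card := Finset.card_pos.mpr ⟨_, hT.1⟩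
  omega

lemma card_dead (T : Finset (List Bool)) (hT : TC T) :
    (Finset.univ.filter (fun e => ¬ alive T e)).card = T.card + 1 := by
  classical
  have h1 := card_alive T hT
  have h2 : (Finset.univ.filter (alive T)).card +
      (Finset.univ.filter (fun e => ¬ alive T e)).card =
      (Finset.univ : Finset ({s // s ∈ T} × Bool)).card :=
    Finset.card_filter_add_card_filter_not (p := alive T)
  have h3 : (Finset.univ : Finset ({s // s ∈ T} × Bool)).card = T.card * 2 := by
    rw [Finset.card_univ, Fintype.card_prod, Fintype.card_bool, Fintype.card_coe]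
  omega

lemma wt_nonneg (T : Finset (List Bool)) (n : ℕ) (ρ : ℝ) (hρ : 0 ≤ ρ) (e : {s // s ∈ T} × Bool)
    (t : {s // s ∈ T}) : 0 ≤ wt T n ρ e t := by
  unfold wt
  split_ifs <;> positivity

lemma sum_tgt (T : Finset (List Bool)) (n : ℕ) (ρ : ℝ) (hρ : 0 ≤ ρ) (e : {s // s ∈ T} × Bool) :
    ∑ t ∈ tgt T e, wt T n ρ e t ≤ if alive T e then 1 / (n : ℝ) else ρ + T.card / √(n : ℝ) := by
  classical
  unfold tgt
  by_cases h : alive T e
  · rw [dif_pos h, Finset.sum_singleton, if_pos h, wt, if_pos h]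
  · rw [dif_neg h, if_neg h]
    have h1 : ∀ t, wt T n ρ e t ≤ (if e.1 = t then ρ else 0) + 1 / √(n : ℝ) := by
      intro t
      unfold wt
      rw [if_neg h]
      have : (0 : ℝ) ≤ 1 / √(n : ℝ) := by positivity
      split_ifs <;> linarith
    calc ∑ t, wt T n ρ e t ≤ ∑ t, ((if e.1 = t then ρ else 0) + 1 / √(n : ℝ)) :=
          Finset.sum_le_sum fun t _ => h1 t
      _ = ρ + T.card / √(n : ℝ) := by
          rw [Finset.sum_add_distrib, Finset.sum_ite_eq, if_pos (Finset.mem_univ _),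
            Finset.sum_const, Finset.card_univ, Fintype.card_coe, nsmul_eq_mul]
          ring

lemma prod_tgt (T : Finset (List Bool)) (hT : TC T) (n : ℕ) (ρ : ℝ) (hρ : 0 ≤ ρ) :
    ∑ τ ∈ Fintype.piFinset (tgt T), ∏ e, wt T n ρ e (τ e) ≤
      (1 / (n : ℝ)) ^ (T.card - 1) * (ρ + T.card / √(n : ℝ)) ^ (T.card + 1) := by
  classical
  rw [← Finset.prod_univ_sum]
  calc ∏ e, ∑ t ∈ tgt T e, wt T n ρ e t
      ≤ ∏ e : {s // s ∈ T} × Bool, (if alive T e then 1 / (n : ℝ) else ρ + T.card / √(n : ℝ)) :=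
        Finset.prod_le_prod (fun e _ => Finset.sum_nonneg fun t _ => wt_nonneg T n ρ hρ e t)
          (fun e _ => sum_tgt T n ρ hρ e)
    _ = _ := by
        rw [Finset.prod_ite, Finset.prod_const, Finset.prod_const, card_dead T hT]
        have := card_alive T hT
        have h2 : (Finset.univ.filter (alive T)).card = T.card - 1 := by omega
        rw [h2]

/-- the event for `q, τ` -/
def Ev {n : ℕ} (π w : Fin 3 → Perm (Fin n)) (T : Finset (List Bool)) (q : {s // s ∈ T} ↪ Fin n)
    (τ : {s // s ∈ T} × Bool → {s // s ∈ T}) (j : Fin 3) : Prop :=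
  ∀ e : {s // s ∈ T} × Bool, lab (e.2 :: e.1.1) = j →
    w j (q (τ e)) = π j (w j (q e.1))

lemma exists_ev {n : ℕ} (π w : Fin 3 → Perm (Fin n)) (T : Finset (List Bool)) (hT : TC T)
    (p : Fin n) (h : Clo (cj3 π w) p T) :
    ∃ (q : {s // s ∈ T} ↪ Fin n), q ⟨[], hT.1⟩ = p ∧ ∃ τ ∈ Fintype.piFinset (tgt T),
      ∀ j, Ev π w T q τ j := by
  classical
  obtain ⟨hi, hc⟩ := h
  have hc' : ∀ e : {s // s ∈ T} × Bool, ∃ t ∈ tgt T e,
      pt (cj3 π w) p (e.2 :: e.1.1) = pt (cj3 π w) p t.1 := by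
    intro e
    by_cases ha : alive T e
    · refine ⟨⟨e.2 :: e.1.1, ha⟩, ?_, rfl⟩
      unfold tgt
      rw [dif_pos ha]
      exact Finset.mem_singleton_self _
    · obtain ⟨t, ht, h⟩ := hc e.1.1 e.1.2 e.2
      refine ⟨⟨t, ht⟩, ?_, h⟩
      unfold tgt
      rw [dif_neg ha]
      exact Finset.mem_univ _
  choose τ hτ hτ' using hc'
  refine ⟨⟨fun s => pt (cj3 π w) p s.1, fun s t hst => Subtype.ext (hi s.2 t.2 hst)⟩, rfl, τ,
    Fintype.mem_piFinset.mpr hτ, ?_⟩
  intro j e hj
  have h1 := hτ' e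
  simp only [pt, hj, cj3, Perm.mul_apply] at h1
  change w j (pt (cj3 π w) p (τ e).1) = π j (w j (pt (cj3 π w) p e.1.1))
  rw [← h1]
  exact (w j).apply_symm_apply _

lemma one_label (hedg : S_EDG) (n J : ℕ) (π : Perm (Fin n)) (ω : Perm (Fin n) → ℝ) (ρ : ℝ)
    (T : Finset (List Bool)) (hω : IsLaw ω) (hρ : 0 ≤ ρ) (hJ : 4 * J ^ 2 ≤ n) (hn : 1 ≤ n)
    (hTJ : T.card ≤ J) (hfix : (fixc π : ℝ) ≤ ρ * n)
    (hmix : ∀ r ≤ J, ∀ a b : Fin r ↪ Fin n, prT ω a b ≤ 2 / (n.descFactorial r : ℝ))
    (q : {s // s ∈ T} ↪ Fin n) (τ : {s // s ∈ T} × Bool → {s // s ∈ T})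
    (hτ : τ ∈ Fintype.piFinset (tgt T)) (j : Fin 3) :
    ∑ w : Perm (Fin n), (open Classical in if ∀ e : {s // s ∈ T} × Bool, lab (e.2 :: e.1.1) = j →
      w (q (τ e)) = π (w (q e.1)) then ω w else 0) ≤
      4 * ∏ e ∈ Finset.univ.filter (fun e : {s // s ∈ T} × Bool => lab (e.2 :: e.1.1) = j),
        wt T n ρ e (τ e) := by
  classical
  set L := Finset.univ.filter (fun e : {s // s ∈ T} × Bool => lab (e.2 :: e.1.1) = j) with hL
  have hLm : ∀ e, e ∈ L ↔ lab (e.2 :: e.1.1) = j := by
    intro e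
    rw [hL, Finset.mem_filter]
    exact ⟨fun h => h.2, fun h => ⟨Finset.mem_univ _, h⟩⟩
  have hτa : ∀ e, alive T e → (τ e).1 = e.2 :: e.1.1 := by
    intro e he
    have h1 := Fintype.mem_piFinset.mp hτ e
    unfold tgt at h1
    rw [dif_pos he, Finset.mem_singleton] at h1
    rw [h1]
  have hfst : ∀ e ∈ L, ∀ e' ∈ L, e.1 = e'.1 → e = e' := by
    intro e he e' he' h
    rw [hLm] at he he'
    refine Prod.ext h ?_
    apply lab_inj e.1.1
    rw [he]
    rw [h]
    exact he'.symm
  have hinj : Set.InjOn (fun e : {s // s ∈ T} × Bool => (e.1, τ e)) (L : Set _) := by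
    intro e he e' he' h
    exact hfst e he e' he' (Prod.mk.inj h).1
  set E := L.image (fun e : {s // s ∈ T} × Bool => (e.1, τ e)) with hE
  set A := (L.filter (alive T)).image (fun e : {s // s ∈ T} × Bool => (e.1, τ e)) with hA
  have hAE : A ⊆ E := Finset.image_subset_image (Finset.filter_subset _ _)
  have hAi : ∀ e ∈ L, ((e.1, τ e) ∈ A ↔ alive T e) := by
    intro e he
    constructor
    · intro h
      rw [hA, Finset.mem_image] at h
      obtain ⟨e', he', h⟩ := h
      rw [Finset.mem_filter] at he'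
      have : e' = e := hinj he'.1 he h
      rw [← this]
      exact he'.2
    · intro h
      exact Finset.mem_image_of_mem _ (Finset.mem_filter.mpr ⟨he, h⟩)
  have hAl : ∀ z ∈ A, z.1 ≠ z.2 := by
    intro z hz h
    rw [hA, Finset.mem_image] at hz
    obtain ⟨e, he, rfl⟩ := hz
    rw [Finset.mem_filter] at he
    have h1 := hτa e he.2
    simp only at h
    rw [← h] at h1
    have := congrArg List.length h1
    simp at this
  have key := hedg n J π ω ρ {s // s ∈ T} q E A hω hρ hJ hn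
    (by rw [Fintype.card_coe]; exact hTJ) hfix hmix hAE
    (by
      intro z hz z' hz' h
      rw [hE, Finset.mem_image] at hz hz'
      obtain ⟨e, he, rfl⟩ := hz
      obtain ⟨e', he', rfl⟩ := hz'
      rw [hfst e he e' he' h])
    (by
      intro z hz z' hz' h
      rw [hA, Finset.mem_image] at hz
      rw [hE, Finset.mem_image] at hz'
      obtain ⟨e, he, rfl⟩ := hz
      obtain ⟨e', he', rfl⟩ := hz'
      rw [Finset.mem_filter] at he
      simp only at h
      have h1 := hτa e he.2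
      have h2 := (hLm e).mp he.1
      have h3 := (hLm e').mp he'
      rw [← h] at h1
      rw [← h1] at h2
      exact lab_ne e'.1.1 e'.2 (h3.trans h2.symm))
  have hprod : ∏ e ∈ L, wt T n ρ e (τ e) = (1 / (n : ℝ)) ^ A.card *
      ρ ^ (E.filter fun e => e.1 = e.2).card *
      (1 / √(n : ℝ)) ^ ((E \ A).filter fun e => e.1 ≠ e.2).card := by
    have h1 : ∏ e ∈ L, wt T n ρ e (τ e) =
        ∏ z ∈ E, (if z ∈ A then 1 / (n : ℝ) else if z.1 = z.2 then ρ else 1 / √(n : ℝ)) := by
      rw [hE, Finset.prod_image (fun e he e' he' h => hinj he he' h)]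
      refine Finset.prod_congr rfl fun e he => ?_
      unfold wt
      by_cases ha : alive T e
      · rw [if_pos ha, if_pos ((hAi e he).mpr ha)]
      · rw [if_neg ha, if_neg (fun h => ha ((hAi e he).mp h))]
    rw [h1, Finset.prod_ite, Finset.prod_ite, Finset.prod_const, Finset.prod_const,
      Finset.prod_const, mul_assoc]
    have h2 : E.filter (fun z => z ∈ A) = A := by
      ext z
      rw [Finset.mem_filter]
      exact ⟨fun h => h.2, fun h => ⟨hAE h, h⟩⟩
    have h3 : (E.filter (fun z => z ∉ A)).filter (fun z => z.1 = z.2) =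
        E.filter fun e => e.1 = e.2 := by
      ext z
      rw [Finset.mem_filter, Finset.mem_filter, Finset.mem_filter]
      exact ⟨fun h => ⟨h.1.1, h.2⟩, fun h => ⟨⟨h.1, fun hz => hAl z hz h.2⟩, h.2⟩⟩
    have h4 : (E.filter (fun z => z ∉ A)).filter (fun z => ¬ z.1 = z.2) =
        (E \ A).filter fun e => e.1 ≠ e.2 := by
      ext z
      rw [Finset.mem_filter, Finset.mem_filter, Finset.mem_filter, Finset.mem_sdiff]
    rw [h2, h3, h4]
  rw [hprod]
  have hsum : ∑ w : Perm (Fin n), (if ∀ e : {s // s ∈ T} × Bool, lab (e.2 :: e.1.1) = j →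
      w (q (τ e)) = π (w (q e.1)) then ω w else 0) =
      ∑ w : Perm (Fin n), (if ∀ e ∈ E, w (q e.2) = π (w (q e.1)) then ω w else 0) := by
    refine Finset.sum_congr rfl fun w _ => ?_
    refine if_congr ?_ rfl rfl
    constructor
    · intro h z hz
      rw [hE, Finset.mem_image] at hz
      obtain ⟨e, he, rfl⟩ := hz
      exact h e ((hLm e).mp he)
    · intro h e he
      exact h (e.1, τ e) (Finset.mem_image_of_mem _ ((hLm e).mpr he))
  rw [hsum, ← mul_assoc, ← mul_assoc]
  exact key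

/-- **CMP1** -/
theorem thmCMP1 (hedg : Pool.Agent.Helper6.NX.S_EDG) : Pool.Agent.Helper6.NX.S_CMP1 := by
  classical
  intro n J π ω ρ T hω hρ hJ hn hTJ hT hfix hmix
  have hprob : ∀ (q : {s // s ∈ T} ↪ Fin n), ∀ τ ∈ Fintype.piFinset (tgt T),
      ∑ w : Fin 3 → Perm (Fin n), (∏ i, ω (w i)) *
        (if ∀ j, Ev π w T q τ j then (1 : ℝ) else 0) ≤ 64 * ∏ e, wt T n ρ e (τ e) := by
    intro q τ hτ
    have h1 : ∀ w : Fin 3 → Perm (Fin n), (∏ i, ω (w i)) *
        (if ∀ j, Ev π w T q τ j then (1 : ℝ) else 0) =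
        ∏ j, (if ∀ e : {s // s ∈ T} × Bool, lab (e.2 :: e.1.1) = j →
          w j (q (τ e)) = π j (w j (q e.1)) then ω (w j) else 0) := by
      intro w
      by_cases h : ∀ j, Ev π w T q τ j
      · rw [if_pos h, mul_one]
        refine Finset.prod_congr rfl fun j _ => ?_
        exact (if_pos (h j)).symm
      · rw [if_neg h, mul_zero]
        push Not at h
        obtain ⟨j, hj⟩ := h
        symm
        apply Finset.prod_eq_zero (Finset.mem_univ j)
        exact if_neg hj
    rw [Finset.sum_congr rfl fun w _ => h1 w]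
    have h2 : ∑ w : Fin 3 → Perm (Fin n), ∏ j, (if ∀ e : {s // s ∈ T} × Bool,
        lab (e.2 :: e.1.1) = j → w j (q (τ e)) = π j (w j (q e.1)) then ω (w j) else 0) =
        ∏ j : Fin 3, ∑ w : Perm (Fin n), (if ∀ e : {s // s ∈ T} × Bool,
        lab (e.2 :: e.1.1) = j → w (q (τ e)) = π j (w (q e.1)) then ω w else 0) := by
      rw [Finset.prod_univ_sum, Fintype.piFinset_univ]
    rw [h2]
    calc ∏ j : Fin 3, ∑ w : Perm (Fin n), (if ∀ e : {s // s ∈ T} × Bool,
        lab (e.2 :: e.1.1) = j → w (q (τ e)) = π j (w (q e.1)) then ω w else 0)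
        ≤ ∏ j : Fin 3, (4 * ∏ e ∈ Finset.univ.filter
          (fun e : {s // s ∈ T} × Bool => lab (e.2 :: e.1.1) = j), wt T n ρ e (τ e)) := by
          refine Finset.prod_le_prod (fun j _ => Finset.sum_nonneg fun w _ => ?_) (fun j _ => ?_)
          · split_ifs
            · exact hω.1 w
            · exact le_refl _
          · have := one_label hedg n J (π j) ω ρ T hω hρ hJ hn hTJ (hfix j) hmix q τ hτ j
            convert this
      _ = 64 * ∏ e, wt T n ρ e (τ e) := by
          rw [Finset.prod_mul_distrib, Finset.prod_const, Finset.card_univ, Fintype.card_fin,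
            Finset.prod_fiberwise]
          norm_num
  have hpt : ∀ w : Fin 3 → Perm (Fin n), ∑ p : Fin n,
      (if Clo (cj3 π w) p T then (1 : ℝ) else 0) ≤
      ∑ q : {s // s ∈ T} ↪ Fin n, ∑ τ ∈ Fintype.piFinset (tgt T),
        (if ∀ j, Ev π w T q τ j then (1 : ℝ) else 0) := by
    intro w
    have h1 : ∀ p : Fin n, (if Clo (cj3 π w) p T then (1 : ℝ) else 0) ≤
        ∑ q : {s // s ∈ T} ↪ Fin n, (if q ⟨[], hT.1⟩ = p then
          ∑ τ ∈ Fintype.piFinset (tgt T), (if ∀ j, Ev π w T q τ j then (1 : ℝ) else 0) else 0) := by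
      intro p
      have hnn : ∀ q : {s // s ∈ T} ↪ Fin n, 0 ≤ (if q ⟨[], hT.1⟩ = p then
          ∑ τ ∈ Fintype.piFinset (tgt T), (if ∀ j, Ev π w T q τ j then (1 : ℝ) else 0) else 0) := by
        intro q
        split_ifs
        · exact Finset.sum_nonneg fun τ _ => by split_ifs <;> norm_num
        · exact le_refl _
      by_cases h : Clo (cj3 π w) p T
      · rw [if_pos h]
        obtain ⟨q, hq, τ, hτ, hE⟩ := exists_ev π w T hT p h
        calc (1 : ℝ) = (if ∀ j, Ev π w T q τ j then (1 : ℝ) else 0) := by rw [if_pos hE]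
          _ ≤ ∑ τ ∈ Fintype.piFinset (tgt T), (if ∀ j, Ev π w T q τ j then (1 : ℝ) else 0) :=
              Finset.single_le_sum (f := fun τ => (if ∀ j, Ev π w T q τ j then (1 : ℝ) else 0))
                (fun τ _ => by split_ifs <;> norm_num) hτ
          _ = (if q ⟨[], hT.1⟩ = p then ∑ τ ∈ Fintype.piFinset (tgt T),
                (if ∀ j, Ev π w T q τ j then (1 : ℝ) else 0) else 0) := by rw [if_pos hq]
          _ ≤ _ := Finset.single_le_sum (f := fun q : {s // s ∈ T} ↪ Fin n =>
                (if q ⟨[], hT.1⟩ = p then ∑ τ ∈ Fintype.piFinset (tgt T),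
                (if ∀ j, Ev π w T q τ j then (1 : ℝ) else 0) else 0)) (fun q _ => hnn q)
                (Finset.mem_univ q)
      · rw [if_neg h]
        exact Finset.sum_nonneg fun q _ => hnn q
    calc ∑ p : Fin n, (if Clo (cj3 π w) p T then (1 : ℝ) else 0)
        ≤ ∑ p : Fin n, ∑ q : {s // s ∈ T} ↪ Fin n, (if q ⟨[], hT.1⟩ = p then
          ∑ τ ∈ Fintype.piFinset (tgt T), (if ∀ j, Ev π w T q τ j then (1 : ℝ) else 0) else 0) :=
          Finset.sum_le_sum fun p _ => h1 p
      _ = _ := by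
          rw [Finset.sum_comm]
          refine Finset.sum_congr rfl fun q _ => ?_
          rw [Finset.sum_ite_eq, if_pos (Finset.mem_univ _)]
  have hn0 : (0 : ℝ) < n := by exact_mod_cast hn
  calc ∑ p : Fin n, ∑ w : Fin 3 → Perm (Fin n), (∏ i, ω (w i)) *
      (if Clo (cj3 π w) p T then (1 : ℝ) else 0)
      = ∑ w : Fin 3 → Perm (Fin n), (∏ i, ω (w i)) *
        ∑ p : Fin n, (if Clo (cj3 π w) p T then (1 : ℝ) else 0) := by
        rw [Finset.sum_comm]
        refine Finset.sum_congr rfl fun w _ => ?_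
        rw [Finset.mul_sum]
    _ ≤ ∑ w : Fin 3 → Perm (Fin n), (∏ i, ω (w i)) *
        ∑ q : {s // s ∈ T} ↪ Fin n, ∑ τ ∈ Fintype.piFinset (tgt T),
          (if ∀ j, Ev π w T q τ j then (1 : ℝ) else 0) :=
        Finset.sum_le_sum fun w _ => mul_le_mul_of_nonneg_left (hpt w)
          (Finset.prod_nonneg fun i _ => hω.1 _)
    _ = ∑ q : {s // s ∈ T} ↪ Fin n, ∑ τ ∈ Fintype.piFinset (tgt T),
        ∑ w : Fin 3 → Perm (Fin n), (∏ i, ω (w i)) *
          (if ∀ j, Ev π w T q τ j then (1 : ℝ) else 0) := by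
        simp_rw [Finset.mul_sum]
        rw [Finset.sum_comm]
        refine Finset.sum_congr rfl fun q _ => ?_
        rw [Finset.sum_comm]
    _ ≤ ∑ q : {s // s ∈ T} ↪ Fin n, ∑ τ ∈ Fintype.piFinset (tgt T),
        64 * ∏ e, wt T n ρ e (τ e) :=
        Finset.sum_le_sum fun q _ => Finset.sum_le_sum fun τ hτ => hprob q τ hτ
    _ = (n.descFactorial T.card : ℝ) * (64 * ∑ τ ∈ Fintype.piFinset (tgt T),
        ∏ e, wt T n ρ e (τ e)) := by
        rw [Finset.sum_const, Finset.card_univ, Fintype.card_embedding_eq, Fintype.card_fin,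
          Fintype.card_coe, nsmul_eq_mul, ← Finset.mul_sum]
    _ ≤ (n : ℝ) ^ T.card * (64 * ((1 / (n : ℝ)) ^ (T.card - 1) *
        (ρ + T.card / √(n : ℝ)) ^ (T.card + 1))) := by
        apply mul_le_mul
        · exact_mod_cast Nat.descFactorial_le_pow n T.card
        · exact mul_le_mul_of_nonneg_left (prod_tgt T hT n ρ hρ) (by norm_num)
        · refine mul_nonneg (by norm_num) (Finset.sum_nonneg fun τ _ => ?_)
          exact Finset.prod_nonneg fun e _ => wt_nonneg T n ρ hρ e _
        · positivity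
    _ = n * (64 * (ρ + T.card / √(n : ℝ)) ^ (T.card + 1)) := by
        have hx : T.card = (T.card - 1) + 1 := by
          have : 0 < T.card := Finset.card_pos.mpr ⟨_, hT.1⟩
          omega
        have h5 : (n : ℝ) ^ T.card * (1 / (n : ℝ)) ^ (T.card - 1) = n := by
          conv_lhs => rw [hx, pow_succ]
          rw [Nat.add_sub_cancel]
          rw [mul_right_comm, ← mul_pow, mul_one_div_cancel hn0.ne', one_pow, one_mul]
        calc (n : ℝ) ^ T.card * (64 * ((1 / (n : ℝ)) ^ (T.card - 1) *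
            (ρ + T.card / √(n : ℝ)) ^ (T.card + 1)))
            = ((n : ℝ) ^ T.card * (1 / (n : ℝ)) ^ (T.card - 1)) *
              (64 * (ρ + T.card / √(n : ℝ)) ^ (T.card + 1)) := by ring
          _ = _ := by rw [h5]

end Pool.Agent.Helper26.NX
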